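import Mathlib
import Pool.Agent.H21.Emb2

namespace Pool.Agent.Results.MP_5335f7_al.Q1Yes

universe u

theorem result (l : ℕ) (hl : 2 ≤ l) (G : Type u) [Group G] [Group.FG G]
    (h1 : derivedSeries G l = ⊥) (h2 : derivedSeries G (l - 1) ≠ ⊥) :
    ∃ (H : Type u) (_ : Group H) (x y : H), Subgroup.closure {x, y} = ⊤ ∧
      derivedSeries H (l + 1) = ⊥ ∧ derivedSeries H l ≠ ⊥ ∧
      ∃ ι : G →* H, Function.Injective ι := by
  obtain ⟨n, rfl⟩ : ∃ n, l = n + 1 := ⟨l - 1, by omega⟩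
  obtain ⟨H, _, x, y, j, a, b, c, d⟩ := Pool.Agent.H21.Emb.main n G h1
  refine ⟨H, inferInstance, x, y, a, b, fun h => h2 ?_, j, c⟩
  rw [← Subgroup.map_eq_bot_iff_of_injective _ c, eq_bot_iff, ← h]
  exact Pool.Agent.H21.Emb.map_der j d n

end Pool.Agent.Results.MP_5335f7_al.Q1Yes
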